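import Pool.Agent.W_92892c_h34t.Pois

/-!
The theta function of a positive definite form: lower bound and exponentially sharp asymptotics
at `0` (Poisson summation).
-/

set_option autoImplicit false

namespace W92892t

open Complex Filter Topology Matrix

/-- `∑_{v ∈ ℤ^r} exp(-π s H(v))`. -/
noncomputable def thetaH {r : ℕ} (H : Matrix (Fin r) (Fin r) ℝ) (s : ℝ) : ℝ :=
  ∑' v : Fin r → ℤ, Real.exp (-(Real.pi * s * qf H fun i => (v i : ℝ)))

theorem thetaH_eq {r : ℕ} {H : Matrix (Fin r) (Fin r) ℝ} (hH : H.PosDef) :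
    ∃ (q : (Fin r → ℝ) → ℝ) (c : ℝ), 0 < c ∧ q 0 = 0 ∧ (∀ u, c * ∑ j, u j ^ 2 ≤ q u) ∧
      ∀ s : ℝ, 0 < s → thetaH H s = s ^ (-((r : ℝ) / 2)) * H.det ^ (-(1 / 2 : ℝ)) *
        ∑' w : Fin r → ℤ, Real.exp (-(Real.pi * q (fun i => (w i : ℝ)) / s)) := by
  obtain ⟨q, c, hc, hq0, hq, hp⟩ := poisson_form r H hH
  refine ⟨q, c, hc, hq0, hq, fun s hs => ?_⟩
  have h := hp s hs 0
  simp only [Pi.zero_apply, zero_mul, Finset.sum_const_zero, ofReal_zero, mul_zero, add_zero,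
    sub_zero] at h
  have h1 : ∀ v : Fin r → ℤ, cexp (-((Real.pi * s * qf H fun i => (v i : ℝ) : ℝ) : ℂ)) =
      ((Real.exp (-(Real.pi * s * qf H fun i => (v i : ℝ))) : ℝ) : ℂ) := by
    intro v; push_cast; rfl
  simp only [h1] at h
  rw [← ofReal_tsum, ← ofReal_tsum, ← ofReal_mul] at h
  exact ofReal_injective h

theorem summable_dual {r : ℕ} {q : (Fin r → ℝ) → ℝ} {c : ℝ} (hc : 0 < c)
    (hq : ∀ u, c * ∑ j, u j ^ 2 ≤ q u) {s : ℝ} (hs : 0 < s) :
    Summable fun w : Fin r → ℤ => Real.exp (-(Real.pi * q (fun i => (w i : ℝ)) / s)) := by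
  have h1 := summable_pi_sq (c := Real.pi * c / s) (by positivity) r 0
  refine Summable.of_nonneg_of_le (fun _ => (Real.exp_pos _).le) (fun w => ?_) h1
  apply Real.exp_le_exp.2
  have h2 := hq (fun i => (w i : ℝ))
  have h3 : Real.pi * c / s * ∑ j, ((w j : ℝ) - (0 : Fin r → ℝ) j) ^ 2 =
      Real.pi * (c * ∑ j, (w j : ℝ) ^ 2) / s := by
    simp only [Pi.zero_apply, sub_zero]
    ring
  rw [h3]
  gcongr

theorem thetaH_ge {r : ℕ} {H : Matrix (Fin r) (Fin r) ℝ} (hH : H.PosDef) {s : ℝ} (hs : 0 < s) :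
    s ^ (-((r : ℝ) / 2)) * H.det ^ (-(1 / 2 : ℝ)) ≤ thetaH H s := by
  obtain ⟨q, c, hc, hq0, hq, hp⟩ := thetaH_eq hH
  rw [hp s hs]
  have hd := hH.det_pos
  have h1 : (1 : ℝ) ≤ ∑' w : Fin r → ℤ, Real.exp (-(Real.pi * q (fun i => (w i : ℝ)) / s)) := by
    have h2 := (summable_dual hc hq hs).le_tsum (0 : Fin r → ℤ) (fun _ _ => (Real.exp_pos _).le)
    have h3 : (fun i => (((0 : Fin r → ℤ) i : ℤ) : ℝ)) = 0 := by funext i; simp
    rw [h3, hq0] at h2
    simpa using h2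
  have h0 : 0 ≤ s ^ (-((r : ℝ) / 2)) * H.det ^ (-(1 / 2 : ℝ)) := by positivity
  nlinarith

/-- The normalised theta function is `1 + O(exp(-c/s))`. -/
theorem thetaH_le {r : ℕ} {H : Matrix (Fin r) (Fin r) ℝ} (hH : H.PosDef) :
    ∃ K c : ℝ, 0 ≤ K ∧ 0 < c ∧ ∀ s : ℝ, 0 < s → s ≤ 1 →
      thetaH H s ≤ s ^ (-((r : ℝ) / 2)) * H.det ^ (-(1 / 2 : ℝ)) *
        (1 + K * Real.exp (-(c / s))) := by
  obtain ⟨q, c, hc, hq0, hq, hp⟩ := thetaH_eq hH
  have hS := summable_dual hc hq (s := 2) (by norm_num)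
  refine ⟨∑' w : Fin r → ℤ, Real.exp (-(Real.pi * q (fun i => (w i : ℝ)) / 2)),
    Real.pi * c / 2, tsum_nonneg fun _ => (Real.exp_pos _).le, by positivity, ?_⟩
  intro s hs hs1
  rw [hp s hs]
  have hd := hH.det_pos
  have h0 : 0 ≤ s ^ (-((r : ℝ) / 2)) * H.det ^ (-(1 / 2 : ℝ)) := by positivity
  refine mul_le_mul_of_nonneg_left ?_ h0
  have h1 : HasSum (fun w : Fin r → ℤ => (if w = 0 then (1 : ℝ) else 0) +
      Real.exp (-(Real.pi * q (fun i => (w i : ℝ)) / 2)) * Real.exp (-(Real.pi * c / 2 / s)))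
      (1 + (∑' w : Fin r → ℤ, Real.exp (-(Real.pi * q (fun i => (w i : ℝ)) / 2))) *
        Real.exp (-(Real.pi * c / 2 / s))) := by
    refine HasSum.add ?_ (hS.hasSum.mul_right _)
    exact hasSum_ite_eq (0 : Fin r → ℤ) (1 : ℝ)
  rw [← h1.tsum_eq]
  refine (summable_dual hc hq hs).tsum_le_tsum (fun w => ?_) h1.summable
  by_cases hw : w = 0
  · have h3 : (fun i => (w i : ℝ)) = 0 := by funext i; simp [hw]
    rw [h3, hq0]
    simp only [hw, if_true, mul_zero, zero_div, neg_zero, Real.exp_zero]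
    have := Real.exp_pos (-(Real.pi * c / 2 / s))
    linarith
  · simp only [hw, if_false, zero_add]
    rw [← Real.exp_add]
    apply Real.exp_le_exp.2
    have h4 : (1 : ℝ) ≤ ∑ j, (w j : ℝ) ^ 2 := by
      obtain ⟨i, hi⟩ := Function.ne_iff.1 hw
      have h5 : (1 : ℝ) ≤ (w i : ℝ) ^ 2 := by
        have h6 : (1 : ℤ) ≤ (w i) ^ 2 := by
          have : w i ≠ 0 := by simpa using hi
          have := sq_pos_of_ne_zero this
          omega
        exact_mod_cast h6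
      exact h5.trans (Finset.single_le_sum (f := fun j => (w j : ℝ) ^ 2)
        (fun j _ => sq_nonneg _) (Finset.mem_univ i))
    have h5 : c ≤ q (fun i => (w i : ℝ)) := by
      refine le_trans ?_ (hq _)
      nlinarith
    set Q := q (fun i => (w i : ℝ))
    have hQ : 0 < Q := hc.trans_le h5
    have h6 : 1 ≤ 1 / s := by rw [le_div_iff₀ hs]; linarith
    have h7 : Real.pi * Q / 2 + Real.pi * c / 2 / s ≤ Real.pi * Q / s := by
      have e1 : Real.pi * Q / s = Real.pi * Q / 2 * (1 / s) + Real.pi * Q / 2 * (1 / s) := by ring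
      have e2 : Real.pi * c / 2 / s = Real.pi * c / 2 * (1 / s) := by ring
      rw [e1, e2]
      have hp := Real.pi_pos
      gcongr
      nlinarith [mul_pos hp hQ]
    linarith

theorem thetaH_tendsto {r : ℕ} {H : Matrix (Fin r) (Fin r) ℝ} (hH : H.PosDef) :
    Tendsto (fun s : ℝ => s ^ ((r : ℝ) / 2) * H.det ^ (1 / 2 : ℝ) * thetaH H s)
      (𝓝[>] 0) (𝓝 1) := by
  obtain ⟨K, c, hK, hc, h⟩ := thetaH_le hH
  have hd := hH.det_pos
  have hup : Tendsto (fun s : ℝ => 1 + K * Real.exp (-(c / s))) (𝓝[>] 0) (𝓝 1) := by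
    have h1 : Tendsto (fun s : ℝ => Real.exp (-(c / s))) (𝓝[>] 0) (𝓝 0) := by
      refine Real.tendsto_exp_atBot.comp ?_
      refine tendsto_neg_atTop_atBot.comp ?_
      have := tendsto_inv_nhdsGT_zero (𝕜 := ℝ)
      exact (this.const_mul_atTop hc).congr fun x => (div_eq_mul_inv c x).symm
    simpa using (h1.const_mul K).const_add 1
  have hk : ∀ s : ℝ, 0 < s → s ^ ((r : ℝ) / 2) * H.det ^ (1 / 2 : ℝ) *
      (s ^ (-((r : ℝ) / 2)) * H.det ^ (-(1 / 2 : ℝ))) = 1 := by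
    intro s hs
    rw [Real.rpow_neg hs.le, Real.rpow_neg hd.le]
    have h1 : s ^ ((r : ℝ) / 2) ≠ 0 := (Real.rpow_pos_of_pos hs _).ne'
    have h2 : H.det ^ (1 / 2 : ℝ) ≠ 0 := (Real.rpow_pos_of_pos hd _).ne'
    field_simp
  refine tendsto_of_tendsto_of_tendsto_of_le_of_le' tendsto_const_nhds hup ?_ ?_
  · filter_upwards [self_mem_nhdsWithin] with s hs
    have hs' : 0 < s := hs
    have h1 := thetaH_ge hH hs'
    have h2 : 0 < s ^ ((r : ℝ) / 2) * H.det ^ (1 / 2 : ℝ) := by positivity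
    have h3 := mul_le_mul_of_nonneg_left h1 h2.le
    rwa [hk s hs'] at h3
  · filter_upwards [Ioo_mem_nhdsGT (show (0 : ℝ) < 1 by norm_num)] with s hs
    have h1 := h s hs.1 hs.2.le
    have hs' : 0 < s := hs.1
    have h2 : 0 < s ^ ((r : ℝ) / 2) * H.det ^ (1 / 2 : ℝ) := by positivity
    have h3 := mul_le_mul_of_nonneg_left h1 h2.le
    rw [← mul_assoc, hk s hs', one_mul] at h3
    exact h3

end W92892t
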